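import Pool.Agent.Helper6.EC_B.Basic

/-!
# MP_ecc237_nt, Part B, packet CST: the constant in the expansion of `N`
-/

open MeasureTheory Filter Topology Set

noncomputable section

namespace EC237.PB.PkCST

theorem sq_le_exp (a : ℝ) : a ^ 2 ≤ 8 * Real.exp (|a| / 2) := by
  have h := Real.quadratic_le_exp_of_nonneg (show (0:ℝ) ≤ |a| / 2 by positivity)
  have h2 : |a| ^ 2 = a ^ 2 := sq_abs a
  nlinarith [abs_nonneg a]

theorem abs_le_exp (a : ℝ) : |a| ≤ 2 * Real.exp (|a| / 2) := by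
  have h := Real.add_one_le_exp (|a| / 2)
  linarith

theorem int_sq (h : Integrable (fun a => Real.exp (|a| / 2)) rho) :
    Integrable (fun a : ℝ => a ^ 2) rho := by
  refine Integrable.mono' (h.const_mul 8) (by fun_prop) ?_
  filter_upwards with a
  rw [Real.norm_eq_abs, abs_of_nonneg (sq_nonneg a)]
  exact sq_le_exp a

theorem int_id (h : Integrable (fun a => Real.exp (|a| / 2)) rho) :
    Integrable (fun a : ℝ => a) rho := by
  refine Integrable.mono' (h.const_mul 2) (by fun_prop) ?_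
  filter_upwards with a
  rw [Real.norm_eq_abs]
  exact abs_le_exp a

theorem int_e8 (h : Integrable (fun a => Real.exp (|a| / 2)) rho) :
    Integrable (fun a : ℝ => Real.exp (|a| / 8)) rho := by
  refine Integrable.mono' h (by fun_prop) ?_
  filter_upwards with a
  rw [Real.norm_eq_abs, abs_of_pos (Real.exp_pos _)]
  apply Real.exp_le_exp.mpr
  have := abs_nonneg a
  linarith

theorem tt_pos (y : ℝ) : 0 < tt y := by unfold tt; positivity

theorem Ld_tt (y : ℝ) : Ld (tt y) = y := by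
  unfold Ld tt
  rw [mul_div_cancel_left₀ _ (two_ne_zero), Real.log_exp]
  ring

theorem sqrt_tt (y : ℝ) :
    Real.sqrt (tt y) = Real.sqrt (2 * Real.exp (-gam)) * Real.exp (-(y / 2)) := by
  have h1 : tt y = (2 * Real.exp (-gam)) * (Real.exp (-(y / 2))) ^ 2 := by
    unfold tt
    rw [mul_assoc, ← Real.exp_nat_mul, ← Real.exp_add]
    congr 2
    push_cast
    ring
  rw [h1, Real.sqrt_mul (by positivity), Real.sqrt_sq (Real.exp_pos _).le]

theorem lim_e : Tendsto (fun y : ℝ => Real.exp (-(y / 2))) atTop (𝓝 0) := by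
  have h1 : Tendsto (fun y : ℝ => y / 2) atTop atTop :=
    tendsto_id.atTop_div_const (by norm_num)
  exact Real.tendsto_exp_neg_atTop_nhds_zero.comp h1

theorem lim_ye : Tendsto (fun y : ℝ => y * Real.exp (-(y / 2))) atTop (𝓝 0) := by
  have h1 : Tendsto (fun y : ℝ => y / 2) atTop atTop :=
    tendsto_id.atTop_div_const (by norm_num)
  have h2 := ((Real.tendsto_pow_mul_exp_neg_atTop_nhds_zero 1).comp h1).const_mul 2
  rw [mul_zero] at h2
  refine h2.congr fun y => ?_
  simp only [Function.comp, pow_one]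
  ring

theorem lim_s : Tendsto (fun y : ℝ => Real.sqrt (tt y)) atTop (𝓝 0) := by
  have h := lim_e.const_mul (Real.sqrt (2 * Real.exp (-gam)))
  rw [mul_zero] at h
  exact h.congr fun y => (sqrt_tt y).symm

theorem lim_ys : Tendsto (fun y : ℝ => y * Real.sqrt (tt y)) atTop (𝓝 0) := by
  have h := lim_ye.const_mul (Real.sqrt (2 * Real.exp (-gam)))
  rw [mul_zero] at h
  refine h.congr fun y => ?_
  rw [sqrt_tt]
  ring

theorem lim_e8 : Tendsto (fun y : ℝ => Real.exp (-(y / 8))) atTop (𝓝 0) := by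
  have h1 : Tendsto (fun y : ℝ => y / 8) atTop atTop :=
    tendsto_id.atTop_div_const (by norm_num)
  exact Real.tendsto_exp_neg_atTop_nhds_zero.comp h1

theorem tt_le_one {y : ℝ} (hy : 1 ≤ y) : tt y ≤ 1 := by
  unfold tt
  have hg : (1:ℝ) / 2 < gam := Real.one_half_lt_eulerMascheroniConstant
  have h1 : Real.exp (-gam - y) ≤ Real.exp (-1) := Real.exp_le_exp.mpr (by linarith)
  have h2 : Real.exp (-1) ≤ 1 / 2 := by
    rw [Real.exp_neg]
    have := Real.add_one_le_exp (1:ℝ)
    rw [inv_eq_one_div, div_le_div_iff₀ (Real.exp_pos _) (by norm_num)]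
    linarith
  linarith

/-- `I K² - y² → 0`. -/
theorem lim_IK (kas : G_KAS) :
    Tendsto (fun y : ℝ => Ib (tt y) * Kb (tt y) ^ 2 - y ^ 2) atTop (𝓝 0) := by
  obtain ⟨C, hC⟩ := kas
  have hB : Tendsto (fun y : ℝ =>
      ((y * Real.sqrt (tt y)) + |C| * Real.sqrt (tt y) ^ 2) ^ 2 * Real.sqrt (tt y) ^ 2
        + |C| * (2 * (y * Real.sqrt (tt y)) + |C| * Real.sqrt (tt y) ^ 2)) atTop (𝓝 0) := by
    have h1 := (((lim_ys.add ((lim_s.pow 2).const_mul |C|)).pow 2).mul (lim_s.pow 2)).add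
      (((lim_ys.const_mul 2).add ((lim_s.pow 2).const_mul |C|)).const_mul |C|)
    simpa using h1
  refine squeeze_zero_norm' ?_ hB
  filter_upwards [eventually_ge_atTop (1:ℝ)] with y hy
  set t := tt y with ht
  set s := Real.sqrt t with hs
  have ht0 : 0 < t := tt_pos y
  have ht1 : t ≤ 1 := tt_le_one hy
  have hs0 : 0 ≤ s := Real.sqrt_nonneg _
  have hss : s ^ 2 = t := Real.sq_sqrt ht0.le
  have hK := hC t ht0 ht1
  rw [ht, Ld_tt, ← ht, ← hs] at hK
  have hK' : |Kb t - y| ≤ |C| * s := hK.trans (by gcongr; exact le_abs_self C)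
  have hI1 := one_le_Ib t
  have hI2 := Ib_le t
  have hI3 : Ib t - 1 ≤ t ^ 2 := by
    have he : Real.exp |t| ≤ 4 := by
      rw [abs_of_pos ht0]
      have h3 : Real.exp t ≤ Real.exp 1 := Real.exp_le_exp.mpr ht1
      have := Real.exp_one_lt_d9
      linarith
    have : t ^ 2 / 4 * Real.exp |t| ≤ t ^ 2 / 4 * 4 := by gcongr
    linarith
  have hKn := Kb_nonneg t
  have hKu : Kb t ≤ y + |C| * s := by
    have := le_abs_self (Kb t - y)
    linarith
  have hKsq : Kb t ^ 2 ≤ (y + |C| * s) ^ 2 := by gcongr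
  have hCs : 0 ≤ |C| * s := by positivity
  rw [Real.norm_eq_abs]
  have e1 : Ib t * Kb t ^ 2 - y ^ 2 = (Ib t - 1) * Kb t ^ 2 + (Kb t - y) * (Kb t + y) := by ring
  have a1 : |(Ib t - 1) * Kb t ^ 2| ≤ t ^ 2 * (y + |C| * s) ^ 2 := by
    rw [abs_of_nonneg (mul_nonneg (by linarith) (sq_nonneg _))]
    exact mul_le_mul hI3 hKsq (sq_nonneg _) (sq_nonneg _)
  have a2 : |(Kb t - y) * (Kb t + y)| ≤ (|C| * s) * (2 * y + |C| * s) := by
    rw [abs_mul]
    refine mul_le_mul hK' ?_ (abs_nonneg _) hCs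
    rw [abs_of_nonneg (by linarith)]
    linarith
  calc |Ib t * Kb t ^ 2 - y ^ 2| = |(Ib t - 1) * Kb t ^ 2 + (Kb t - y) * (Kb t + y)| := by
        rw [e1]
    _ ≤ |(Ib t - 1) * Kb t ^ 2| + |(Kb t - y) * (Kb t + y)| := abs_add_le _ _
    _ ≤ t ^ 2 * (y + |C| * s) ^ 2 + (|C| * s) * (2 * y + |C| * s) := add_le_add a1 a2
    _ = ((y * s) + |C| * s ^ 2) ^ 2 * s ^ 2 + |C| * (2 * (y * s) + |C| * s ^ 2) := by
        rw [← hss]; ring

/-- The integral of the polynomial. -/
theorem int_poly (h : Integrable (fun a => Real.exp (|a| / 2)) rho) (hm : ∫ a, a ∂rho = 0)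
    (y C0 : ℝ) : Integrable (fun a => (y + a) ^ 2 + C0) rho ∧
      ∫ a, ((y + a) ^ 2 + C0) ∂rho = y ^ 2 + (∫ a, a ^ 2 ∂rho) + C0 := by
  have e : (fun a : ℝ => (y + a) ^ 2 + C0) = fun a => a ^ 2 + (2 * y * a + (y ^ 2 + C0)) := by
    ext a; ring
  have i1 := int_sq h
  have i2 : Integrable (fun a : ℝ => 2 * y * a) rho := (int_id h).const_mul (2 * y)
  have i3 : Integrable (fun _ : ℝ => y ^ 2 + C0) rho := integrable_const _
  refine ⟨?_, ?_⟩
  · rw [e]; exact i1.add (i2.add i3)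
  · rw [e]
    have e1 := integral_add i1 (i2.add i3)
    have e2 := integral_add i2 i3
    simp only [Pi.add_apply] at e1
    rw [e1, e2, integral_const_mul, hm, integral_const]
    simp
    ring

theorem thm (kas : G_KAS) (nas : G_NAS) (gmg : G_GMG) (_d1 : G_D1) (d3 : G_D3) : G_CST := by
  intro C0 C hN
  obtain ⟨hexp, hmean, -⟩ := d3
  obtain ⟨-, hmeas, -, -, -⟩ := nas
  have i8 := int_e8 hexp
  set m2 := ∫ a, a ^ 2 ∂rho with hm2
  have key : ∀ y : ℝ, |(Ib (tt y) * Kb (tt y) ^ 2 - y ^ 2) - (m2 + C0)| ≤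
      |C| * (∫ a, Real.exp (|a| / 8) ∂rho) * Real.exp (-(y / 8)) := by
    intro y
    obtain ⟨ip, ep⟩ := int_poly hexp hmean y C0
    have hb : ∀ a : ℝ, ‖Nf (y + a) - ((y + a) ^ 2 + C0)‖ ≤
        |C| * Real.exp (-(y / 8)) * Real.exp (|a| / 8) := by
      intro a
      rw [Real.norm_eq_abs]
      refine (hN (y + a)).trans ?_
      calc C * Real.exp (-((y + a) / 8)) ≤ |C| * Real.exp (-((y + a) / 8)) := by
            gcongr; exact le_abs_self C
        _ ≤ |C| * (Real.exp (-(y / 8)) * Real.exp (|a| / 8)) := by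
            gcongr
            rw [← Real.exp_add]
            apply Real.exp_le_exp.mpr
            have := neg_abs_le a
            linarith
        _ = _ := by ring
    have hmeas' : Measurable (fun a : ℝ => Nf (y + a)) :=
      hmeas.comp (measurable_const.add measurable_id)
    have idiff : Integrable (fun a => Nf (y + a) - ((y + a) ^ 2 + C0)) rho := by
      refine Integrable.mono' (i8.const_mul (|C| * Real.exp (-(y / 8)))) ?_ ?_
      · exact (hmeas'.sub (by fun_prop)).aestronglyMeasurable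
      · filter_upwards with a using hb a
    have iN : Integrable (fun a => Nf (y + a)) rho := by
      refine (idiff.add ip).congr ?_
      filter_upwards with a
      simp
    have e1 : ∫ a, (Nf (y + a) - ((y + a) ^ 2 + C0)) ∂rho =
        (Ib (tt y) * Kb (tt y) ^ 2 - y ^ 2) - (m2 + C0) := by
      rw [integral_sub iN ip, gmg y, ep]
      ring
    have h1 : |∫ a, (Nf (y + a) - ((y + a) ^ 2 + C0)) ∂rho| ≤
        ∫ a, |C| * Real.exp (-(y / 8)) * Real.exp (|a| / 8) ∂rho := by
      have := norm_integral_le_of_norm_le (i8.const_mul (|C| * Real.exp (-(y / 8))))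
        (Eventually.of_forall hb)
      rwa [Real.norm_eq_abs] at this
    rw [e1, integral_const_mul] at h1
    calc _ ≤ _ := h1
      _ = _ := by ring
  have lim1 : Tendsto (fun y : ℝ => (Ib (tt y) * Kb (tt y) ^ 2 - y ^ 2) - (m2 + C0)) atTop
      (𝓝 0) := by
    have hB := lim_e8.const_mul (|C| * (∫ a, Real.exp (|a| / 8) ∂rho))
    rw [mul_zero] at hB
    refine squeeze_zero_norm (fun y => ?_) hB
    rw [Real.norm_eq_abs]
    exact key y
  have lim2 := (lim_IK kas).sub_const (m2 + C0)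
  have := tendsto_nhds_unique lim1 lim2
  linarith

end EC237.PB.PkCST
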